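import Mathlib

/-!
# The Pell conic `x² - d y² = 1`, `x = 1 + 3 z`, over rings of integers

Author: helper805.
-/

set_option autoImplicit false

namespace Run7.h805.IP

open NumberField NumberField.IsCMField Module

section basic

variable {K : Type} [Field K] [NumberField K]

lemma rational_int (w : 𝓞 K) (q : ℚ) (h : algebraMap ℚ K q = (w : K)) :
    ∃ n : ℤ, w = (n : 𝓞 K) := by
  have h1 : IsIntegral ℤ (algebraMap ℚ K q) := by
    rw [h]
    exact w.isIntegral_coe
  have h2 : IsIntegral ℤ q := (isIntegral_algebraMap_iff (algebraMap ℚ K).injective).1 h1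
  obtain ⟨n, hn⟩ := IsIntegrallyClosed.isIntegral_iff.1 h2
  refine ⟨n, ?_⟩
  apply RingOfIntegers.ext
  rw [← h, ← hn]
  simp

lemma no_third (w : 𝓞 K) (h : 3 * w = 2) : False := by
  have h1 : algebraMap ℚ K (2 / 3) = (w : K) := by
    have h2 : (3 : K) * (w : K) = 2 := by
      have := congrArg (algebraMap (𝓞 K) K) h
      rwa [map_mul, map_ofNat, map_ofNat] at this
    rw [map_div₀]
    simp only [map_ofNat]
    field_simp
    linear_combination -h2
  obtain ⟨n, hn⟩ := rational_int w _ h1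
  rw [hn] at h
  have h3 : ((3 * n : ℤ) : 𝓞 K) = ((2 : ℤ) : 𝓞 K) := by push_cast; exact h
  have h4 : (3 * n : ℤ) = 2 := by exact_mod_cast h3
  omega

end basic

/-- the solutions over `ℤ` -/
lemma pell_unbounded (d : ℤ) (hd : 2 ≤ d) (hs : ¬ IsSquare d) (n : ℕ) :
    ∃ z y : ℤ, 9 * z ^ 2 + 6 * z - d * y ^ 2 = 0 ∧ (n : ℤ) + 1 ≤ z := by
  induction n with
  | zero =>
    obtain ⟨x, y, hxy, hy⟩ := Pell.exists_of_not_isSquare (by omega) hs
    have hk : ∃ k : ℤ, x ^ 2 * (x ^ 2 - 1) = 3 * k := by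
      have h3 : (x ^ 2 * (x ^ 2 - 1)) % 3 = 0 := by
        have : x % 3 = 0 ∨ x % 3 = 1 ∨ x % 3 = 2 := by omega
        rcases this with h | h | h <;> simp [pow_two, Int.mul_emod, Int.sub_emod, h]
      exact ⟨_, (Int.mul_ediv_cancel' (Int.dvd_of_emod_eq_zero h3)).symm⟩
    obtain ⟨k, hk⟩ := hk
    have hy2 : 1 ≤ y ^ 2 := by
      have : 0 < y ^ 2 := by positivity
      omega
    have hx2 : 3 ≤ x ^ 2 := by nlinarith
    refine ⟨8 * k, 2 * (2 * x ^ 2 - 1) * (2 * x * y), ?_, ?_⟩
    · have hk' : 3 * k = x ^ 2 * (x ^ 2 - 1) := hk.symm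
      linear_combination (64 * (3 * k + x ^ 2 * (x ^ 2 - 1)) + 16) * hk' +
        (16 * x ^ 2 * (2 * x ^ 2 - 1) ^ 2) * hxy
    · have : 0 < 3 * k := by
        rw [← hk]
        have : 0 < x ^ 2 - 1 := by omega
        positivity
      push_cast
      omega
  | succ n ih =>
    obtain ⟨z, y, h, hz⟩ := ih
    refine ⟨6 * z ^ 2 + 4 * z, 2 * (1 + 3 * z) * y, ?_, ?_⟩
    · linear_combination (4 * (1 + 3 * z) ^ 2) * h
    · push_cast
      nlinarith

section cm

variable (K : Type) [Field K] [NumberField K] [IsCMField K]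

lemma cm_desc (d : ℤ) (hd : 2 ≤ d) (z y : 𝓞 K) (h : 9 * z ^ 2 + 6 * z - (d : 𝓞 K) * y ^ 2 = 0) :
    ringOfIntegersComplexConj K z = z ∧ ringOfIntegersComplexConj K y = y := by
  obtain ⟨c, hc⟩ : ∃ c : 𝓞 K →+* 𝓞 K, ∀ a, c a = ringOfIntegersComplexConj K a :=
    ⟨(ringOfIntegersComplexConj K).toRingEquiv.toRingHom, fun a => rfl⟩
  rw [← hc, ← hc]
  have hcK : ∀ a : 𝓞 K, ((c a : 𝓞 K) : K) = complexConj K (a : K) := by
    intro a
    rw [hc, coe_ringOfIntegersComplexConj]
  have hcc : ∀ a : 𝓞 K, c (c a) = a := by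
    intro a
    apply RingOfIntegers.ext
    rw [hcK, hcK, complexConj_apply_apply]
  have h' : 9 * (c z) ^ 2 + 6 * (c z) - (d : 𝓞 K) * (c y) ^ 2 = 0 := by
    have := congrArg c h
    rwa [map_sub, map_add, map_mul, map_mul, map_mul, map_pow, map_pow, map_intCast, map_ofNat,
      map_ofNat, map_zero] at this
  set x : 𝓞 K := 1 + 3 * z with hx
  have hx1 : x ^ 2 - d * y ^ 2 = 1 := by rw [hx]; linear_combination h
  have hcx : c x = 1 + 3 * c z := by
    rw [hx, map_add, map_mul, map_one, map_ofNat]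
  have hx2 : (c x) ^ 2 - d * (c y) ^ 2 = 1 := by rw [hcx]; linear_combination h'
  set P : 𝓞 K := x * c x - d * (y * c y) with hP
  set Q : 𝓞 K := y * c x - x * c y with hQ
  have hPQ : P ^ 2 - d * Q ^ 2 = 1 := by
    rw [hP, hQ]
    linear_combination ((c x) ^ 2 - d * (c y) ^ 2) * hx1 + hx2
  have hcP : c P = P := by
    rw [hP]; simp only [map_sub, map_mul, hcc, map_intCast]; ring
  have hcQ : c Q = -Q := by
    rw [hQ]; simp only [map_sub, map_mul, hcc]; ring
  have hlt : ∀ w : InfinitePlace K, w (Q : K) < 1 := by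
    intro w
    rw [← InfinitePlace.norm_embedding_eq]
    set φ := w.embedding with hφ
    have e1 : (starRingEnd ℂ) (φ (P : K)) = φ (P : K) := by
      rw [← complexEmbedding_complexConj, ← hcK, hcP]
    have e2 : (starRingEnd ℂ) (φ (Q : K)) = -φ (Q : K) := by
      rw [← complexEmbedding_complexConj, ← hcK, hcQ]
      simp
    have e3 : (φ (P : K)) ^ 2 - d * (φ (Q : K)) ^ 2 = 1 := by
      have := congrArg (fun a : 𝓞 K => φ (a : K)) hPQ
      simpa using this
    have i1 : (φ (P : K)).im = 0 := Complex.conj_eq_iff_im.1 e1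
    have i2 : (φ (Q : K)).re = 0 := by
      have := congrArg Complex.re e2
      simp only [Complex.conj_re, Complex.neg_re] at this
      linarith
    have e4 := congrArg Complex.re e3
    simp only [Complex.sub_re, Complex.mul_re, pow_two, Complex.intCast_re, Complex.intCast_im,
      Complex.one_re, i1, i2] at e4
    have hd' : (2 : ℝ) ≤ d := by exact_mod_cast hd
    have e5 : (φ (Q : K)).im ^ 2 < 1 := by
      nlinarith [sq_nonneg ((φ (P : K)).re), sq_nonneg ((φ (Q : K)).im)]
    have e6 : ‖φ (Q : K)‖ ^ 2 = (φ (Q : K)).im ^ 2 := by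
      rw [← Complex.normSq_eq_norm_sq, Complex.normSq_apply, i2]
      ring
    nlinarith [norm_nonneg (φ (Q : K))]
  have hQ0 : Q = 0 := by
    by_contra hne
    obtain ⟨w⟩ : Nonempty (InfinitePlace K) := inferInstance
    have := InfinitePlace.one_le_of_lt_one (w := w) hne (fun z _ => hlt z)
    exact absurd (hlt w) (not_lt.2 this)
  have hq : y * c x = x * c y := by
    have := hQ0
    rw [hQ] at this
    exact sub_eq_zero.1 this
  have hPx : P * x = c x := by
    rw [hP]
    linear_combination (c x) * hx1 + (d : 𝓞 K) * y * hq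
  have hPy : P * y = c y := by
    rw [hP]
    linear_combination (c y) * hx1 + x * hq
  have hP2 : (P - 1) * (P + 1) = 0 := by
    rw [hQ0] at hPQ
    linear_combination hPQ
  rcases mul_eq_zero.1 hP2 with h1 | h1
  · have h2 : P = 1 := sub_eq_zero.1 h1
    rw [h2, one_mul] at hPx hPy
    refine ⟨?_, hPy.symm⟩
    have h3 : (3 : 𝓞 K) * (c z - z) = 0 := by
      rw [hcx, hx] at hPx
      linear_combination -hPx
    rcases mul_eq_zero.1 h3 with h4 | h4
    · exact absurd h4 (by norm_num)
    · exact sub_eq_zero.1 h4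
  · exfalso
    have h2 : P = -1 := eq_neg_of_add_eq_zero_left h1
    rw [h2, hcx, hx] at hPx
    exact no_third (-(z + c z)) (by linear_combination hPx)

end cm

/-- The curve of discriminant `d` does not grow over `𝓞 K`. -/
def Good (K : Type) [Field K] [NumberField K] : Prop :=
  ∃ d : ℤ, 2 ≤ d ∧ ¬ IsSquare d ∧ ∀ z y : 𝓞 K, 9 * z ^ 2 + 6 * z - (d : 𝓞 K) * y ^ 2 = 0 →
    (∃ a : ℤ, z = (a : 𝓞 K)) ∧ ∃ b : ℤ, y = (b : 𝓞 K)

lemma good_one (F : Type) [Field F] [NumberField F] (h : finrank ℚ F = 1) : Good F := by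
  refine ⟨2, le_rfl, by
    rintro ⟨r, hr⟩
    have : r ≤ 1 := by nlinarith
    have : -1 ≤ r := by nlinarith
    interval_cases r <;> omega, fun z y _ => ?_⟩
  have key : ∀ w : 𝓞 F, ∃ n : ℤ, w = (n : 𝓞 F) := by
    intro w
    have h1 : (w : F) ∈ (⊥ : Subalgebra ℚ F) := by
      rw [Subalgebra.bot_eq_top_of_finrank_eq_one h]
      exact Algebra.mem_top
    obtain ⟨q, hq⟩ := Algebra.mem_bot.1 h1
    exact rational_int w q hq
  exact ⟨key z, key y⟩

lemma good_real (F : Type) [Field F] [NumberField F] [IsTotallyReal F] (h : finrank ℚ F = 2) :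
    Good F := by
  have hq : Algebra.IsQuadraticExtension ℚ F := ⟨h⟩
  have hcard : Nat.card Gal(F/ℚ) = 2 := by
    rw [IsGalois.card_aut_eq_finrank, h]
  obtain ⟨σ, hσ1⟩ : ∃ σ : Gal(F/ℚ), σ ≠ 1 := by
    by_contra hc
    push Not at hc
    have : Nat.card Gal(F/ℚ) ≤ 1 := by
      rw [Finite.card_le_one_iff_subsingleton]
      exact ⟨fun a b => (hc a).trans (hc b).symm⟩
    omega
  have hord : ∀ τ : Gal(F/ℚ), τ = 1 ∨ τ = σ := by
    intro τ
    by_contra hc
    push Not at hc
    have : 2 < Nat.card Gal(F/ℚ) := by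
      classical
      have h3 : ({1, σ, τ} : Finset Gal(F/ℚ)).card = 3 :=
        Finset.card_eq_three.2 ⟨1, σ, τ, hσ1.symm, hc.1.symm, hc.2.symm, rfl⟩
      have : ({1, σ, τ} : Finset Gal(F/ℚ)).card ≤ Nat.card Gal(F/ℚ) := by
        rw [Nat.card_eq_fintype_card]
        exact Finset.card_le_univ _
      omega
    omega
  have hσσ : ∀ a : F, σ (σ a) = a := by
    have : σ * σ = 1 := by
      rcases hord (σ * σ) with h1 | h1
      · exact h1
      · exfalso
        exact hσ1 (mul_eq_left.1 h1)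
    intro a
    have := congrArg (fun f : Gal(F/ℚ) => f a) this
    exact this
  have hfix : ∀ a : F, σ a = a → ∃ q : ℚ, algebraMap ℚ F q = a := by
    intro a ha
    have h1 : a ∈ (⊥ : IntermediateField ℚ F) := by
      rw [← IsGalois.fixedField_top, IntermediateField.mem_fixedField_iff]
      intro τ _
      rcases hord τ with h2 | h2
      · rw [h2]; rfl
      · rw [h2]; exact ha
    exact IntermediateField.mem_bot.1 h1
  -- a generator with square in `ℤ`
  obtain ⟨t, ht⟩ : ∃ t : F, σ t ≠ t := by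
    by_contra hc
    push Not at hc
    apply hσ1
    ext a
    exact hc a
  obtain ⟨m, hm0, hm⟩ := ((IsFractionRing.isAlgebraic_iff ℤ ℚ F).2
    (Algebra.IsAlgebraic.isAlgebraic (R := ℚ) t)).exists_integral_multiple
  obtain ⟨c, hc⟩ : ∃ c : 𝓞 F →+* 𝓞 F, ∀ a : 𝓞 F, ((c a : 𝓞 F) : F) = σ (a : F) :=
    ⟨RingOfIntegers.mapRingHom σ, fun a => rfl⟩
  have hcc : ∀ a : 𝓞 F, c (c a) = a := by
    intro a
    apply RingOfIntegers.ext
    rw [hc, hc, hσσ]
  have hfixO : ∀ a : 𝓞 F, c a = a → ∃ n : ℤ, a = (n : 𝓞 F) := by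
    intro a ha
    obtain ⟨q, hq⟩ := hfix (a : F) (by rw [← hc, ha])
    exact rational_int a q hq
  set θ : 𝓞 F := ⟨m • t, hm⟩ with hθ
  have hθK : (θ : F) = m • t := rfl
  set s : 𝓞 F := θ - c θ with hs
  have hcs : c s = -s := by rw [hs, map_sub, hcc]; ring
  have hs0 : s ≠ 0 := by
    intro h0
    rw [hs, sub_eq_zero] at h0
    have h1 := congrArg (fun a : 𝓞 F => (a : F)) h0
    simp only [hc, hθK] at h1
    rw [map_zsmul, zsmul_eq_mul, zsmul_eq_mul] at h1
    have hm' : (m : F) ≠ 0 := by exact_mod_cast hm0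
    exact ht (mul_left_cancel₀ hm' h1).symm
  obtain ⟨d, hd⟩ := hfixO (s * s) (by rw [map_mul, hcs]; ring)
  have hsym : ∀ r : ℤ, s ≠ (r : 𝓞 F) := by
    intro r hr
    have h1 : c s = s := by rw [hr, map_intCast]
    rw [hcs] at h1
    apply hs0
    have h2 : (2 : 𝓞 F) * s = 0 := by linear_combination -h1
    rcases mul_eq_zero.1 h2 with h3 | h3
    · exact absurd h3 (by norm_num)
    · exact h3
  have hsq : ¬ IsSquare d := by
    rintro ⟨r, hr⟩
    have h1 : (s - (r : 𝓞 F)) * (s + (r : 𝓞 F)) = 0 := by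
      rw [hr] at hd
      push_cast at hd
      linear_combination hd
    rcases mul_eq_zero.1 h1 with h2 | h2
    · exact hsym r (sub_eq_zero.1 h2)
    · exact hsym (-r) (by push_cast; exact eq_neg_of_add_eq_zero_left h2)
  have hd0 : 0 ≤ d := by
    obtain ⟨w⟩ : Nonempty (InfinitePlace F) := inferInstance
    have hw : w.IsReal := IsTotallyReal.isReal w
    have h1 : (InfinitePlace.embedding_of_isReal hw (s : F)) ^ 2 = (d : ℝ) := by
      have h2 : (s : F) * (s : F) = (d : F) := by
        have := congrArg (fun a : 𝓞 F => (a : F)) hd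
        simpa using this
      rw [← map_pow, pow_two, h2, map_intCast]
    have h3 : (0 : ℝ) ≤ (d : ℝ) := by rw [← h1]; positivity
    exact_mod_cast h3
  have hd2 : 2 ≤ d := by
    rcases (by omega : d = 0 ∨ d = 1 ∨ 2 ≤ d) with h1 | h1 | h1
    · exact absurd ⟨0, by rw [h1]; rfl⟩ hsq
    · exact absurd ⟨1, by rw [h1]; rfl⟩ hsq
    · exact h1
  refine ⟨d, hd2, hsq, fun z y heq => ?_⟩
  set x : 𝓞 F := 1 + 3 * z with hx
  have hcx : c x = 1 + 3 * c z := by
    rw [hx, map_add, map_mul, map_one, map_ofNat]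
  have huv : (x + y * s) * (x - y * s) = 1 := by
    rw [hx]
    linear_combination heq - y ^ 2 * hd
  have hcu : c (x + y * s) = c x - c y * s := by
    rw [map_add, map_mul, hcs]; ring
  have hcv : c (x - y * s) = c x + c y * s := by
    rw [map_sub, map_mul, hcs]; ring
  obtain ⟨n, hn⟩ := hfixO ((x + y * s) * c (x + y * s)) (by rw [map_mul, hcc]; ring)
  obtain ⟨n', hn'⟩ := hfixO ((x - y * s) * c (x - y * s)) (by rw [map_mul, hcc]; ring)
  have hnn : n * n' = 1 := by
    have h1 : ((n * n' : ℤ) : 𝓞 F) = ((1 : ℤ) : 𝓞 F) := by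
      push_cast
      rw [← hn, ← hn']
      have h2 : c (x + y * s) * c (x - y * s) = 1 := by
        rw [← map_mul, huv, map_one]
      linear_combination (c (x + y * s) * c (x - y * s)) * huv + h2
    exact_mod_cast h1
  have two_cancel : ∀ a : 𝓞 F, 2 * a = 0 → a = 0 := by
    intro a ha
    rcases mul_eq_zero.1 ha with h3 | h3
    · exact absurd h3 (by norm_num)
    · exact h3
  rcases Int.eq_one_or_neg_one_of_mul_eq_one hnn with h1 | h1
  · rw [h1] at hn
    push_cast at hn
    have e1 : c x - c y * s = x - y * s := by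
      rw [← hcu]
      linear_combination (x - y * s) * hn - c (x + y * s) * huv
    have e2 : x + y * s = c x + c y * s := by
      have := congrArg c e1
      rw [map_sub, map_mul, hcc, hcc, hcs, hcv] at this
      linear_combination this
    have hxx : c x = x := by
      have := two_cancel (c x - x) (by linear_combination e1 - e2)
      exact sub_eq_zero.1 this
    have hyy : c y = y := by
      have h2 : (c y - y) * s = 0 := by
        linear_combination -e2 - hxx
      rcases mul_eq_zero.1 h2 with h3 | h3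
      · exact sub_eq_zero.1 h3
      · exact absurd h3 hs0
    have hzz : c z = z := by
      have h3 : (3 : 𝓞 F) * (c z - z) = 0 := by
        rw [hcx, hx] at hxx
        linear_combination hxx
      rcases mul_eq_zero.1 h3 with h4 | h4
      · exact absurd h4 (by norm_num)
      · exact sub_eq_zero.1 h4
    exact ⟨hfixO z hzz, hfixO y hyy⟩
  · exfalso
    rw [h1] at hn
    push_cast at hn
    have e1 : c x - c y * s = -x + y * s := by
      rw [← hcu]
      linear_combination (x - y * s) * hn - c (x + y * s) * huv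
    have e2 : x + y * s = -c x - c y * s := by
      have := congrArg c e1
      rw [map_sub, map_mul, hcc, hcc, hcs, map_add, map_neg, map_mul, hcs] at this
      linear_combination this
    have hxx : c x + x = 0 := two_cancel (c x + x) (by linear_combination e1 + e2)
    rw [hcx, hx] at hxx
    exact no_third (-(z + c z)) (by linear_combination -hxx)

lemma good_cm (K : Type) [Field K] [NumberField K] [IsCMField K]
    (h : Good (maximalRealSubfield K)) : Good K := by
  obtain ⟨d, hd, hsq, h⟩ := h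
  refine ⟨d, hd, hsq, fun z y heq => ?_⟩
  obtain ⟨hz, hy⟩ := cm_desc K d hd z y heq
  rw [ringOfIntegersComplexConj_eq_self_iff] at hz hy
  obtain ⟨z', rfl⟩ := hz
  obtain ⟨y', rfl⟩ := hy
  have hinj : Function.Injective (algebraMap (𝓞 (maximalRealSubfield K)) (𝓞 K)) :=
    FaithfulSMul.algebraMap_injective _ _
  obtain ⟨⟨a, ha⟩, b, hb⟩ := h z' y' (by
    apply hinj
    rw [map_zero, ← heq]
    rw [map_sub, map_add, map_mul, map_mul, map_mul, map_pow, map_pow, map_intCast, map_ofNat,
      map_ofNat])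
  exact ⟨⟨a, by rw [ha, map_intCast]⟩, b, by rw [hb, map_intCast]⟩

theorem good_main (K : Type) [Field K] [NumberField K]
    (h : finrank ℚ K = 2 ∨ (IsCMField K ∧ finrank ℚ K = 4)) : Good K := by
  rcases h with h | ⟨hcm, h⟩
  · have hq : Algebra.IsQuadraticExtension ℚ K := ⟨h⟩
    have h1 := InfinitePlace.card_add_two_mul_card_eq_rank K
    rw [h] at h1
    rcases (by omega : InfinitePlace.nrComplexPlaces K = 0 ∨ InfinitePlace.nrRealPlaces K = 0)
      with h2 | h2
    · have : IsTotallyReal K := nrComplexPlaces_eq_zero_iff.1 h2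
      exact good_real K h
    · have : IsTotallyComplex K := nrRealPlaces_eq_zero_iff.1 h2
      have : IsCMField K := IsCMField.ofCMExtension ℚ K
      apply good_cm
      apply good_one
      have h3 := Module.finrank_mul_finrank ℚ (maximalRealSubfield K) K
      rw [Algebra.IsQuadraticExtension.finrank_eq_two _ K, h] at h3
      omega
  · apply good_cm
    apply good_real
    have h3 := Module.finrank_mul_finrank ℚ (maximalRealSubfield K) K
    rw [Algebra.IsQuadraticExtension.finrank_eq_two _ K, h] at h3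
    omega

end Run7.h805.IP
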