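import Mathlib

/-!
# Points of an affine curve over `ℤ` and over `𝓞 K`

Author: helper805.
-/

set_option autoImplicit false

namespace Run7.h805.IP

open AlgebraicGeometry CategoryTheory NumberField MvPolynomial

/-- the coordinate ring of `f = 0` -/
abbrev CR (f : MvPolynomial (Fin 2) ℤ) : Type := MvPolynomial (Fin 2) ℤ ⧸ Ideal.span {f}

/-- the homomorphism given by a solution -/
noncomputable def hm {R : Type} [CommRing R] (f : MvPolynomial (Fin 2) ℤ) (v : Fin 2 → R)
    (h : aeval v f = 0) : CR f →+* R :=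
  Ideal.Quotient.lift (Ideal.span {f}) (aeval v : MvPolynomial (Fin 2) ℤ →ₐ[ℤ] R).toRingHom (by
    intro a ha
    obtain ⟨b, rfl⟩ := Ideal.mem_span_singleton'.1 ha
    simp [h])

lemma hm_mk {R : Type} [CommRing R] (f : MvPolynomial (Fin 2) ℤ) (v : Fin 2 → R)
    (h : aeval v f = 0) (i : Fin 2) :
    hm f v h (Ideal.Quotient.mk _ (X i)) = v i := by
  simp [hm]

lemma hom_ext {R : Type} [CommRing R] (f : MvPolynomial (Fin 2) ℤ) {φ ψ : CR f →+* R}
    (h : ∀ i, φ (Ideal.Quotient.mk _ (X i)) = ψ (Ideal.Quotient.mk _ (X i))) : φ = ψ := by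
  apply Ideal.Quotient.ringHom_ext
  apply MvPolynomial.ringHom_ext
  · intro r
    have := RingHom.congr_fun (RingHom.ext_int ((φ.comp (Ideal.Quotient.mk _)).comp C)
      ((ψ.comp (Ideal.Quotient.mk _)).comp C)) r
    simpa using this
  · intro i
    exact h i

lemma aeval_hom {R : Type} [CommRing R] (f : MvPolynomial (Fin 2) ℤ) (φ : CR f →+* R) :
    aeval (fun i => φ (Ideal.Quotient.mk _ (X i))) f = 0 := by
  have h1 : φ (Ideal.Quotient.mk _ f) = 0 := by
    rw [Ideal.Quotient.eq_zero_iff_mem.2 (Ideal.mem_span_singleton_self f), map_zero]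
  have h2 : ((aeval (fun i => φ (Ideal.Quotient.mk (Ideal.span {f}) (X i))) :
      MvPolynomial (Fin 2) ℤ →ₐ[ℤ] R) : MvPolynomial (Fin 2) ℤ →+* R) =
      φ.comp (Ideal.Quotient.mk _) := by
    apply MvPolynomial.ringHom_ext
    · intro r
      have := RingHom.congr_fun (RingHom.ext_int (((aeval (fun i => φ (Ideal.Quotient.mk
        (Ideal.span {f}) (X i))) : MvPolynomial (Fin 2) ℤ →ₐ[ℤ] R) :
          MvPolynomial (Fin 2) ℤ →+* R).comp C)
        ((φ.comp (Ideal.Quotient.mk _)).comp C)) r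
      simpa using this
    · intro i
      simp
  have h3 := RingHom.congr_fun h2 f
  rw [RingHom.comp_apply, h1] at h3
  exact h3

/-- From the equation to the scheme. -/
theorem scheme_of (K : Type) [Field K] [NumberField K] (f : MvPolynomial (Fin 2) ℤ)
    (h1 : {v : Fin 2 → ℤ | aeval v f = 0}.Infinite)
    (h2 : ∀ v : Fin 2 → 𝓞 K, aeval v f = 0 → ∀ i, ∃ a : ℤ, v i = algebraMap ℤ (𝓞 K) a) :
    ∃ (X : Scheme.{0}) (f : X ⟶ Spec (CommRingCat.of ℤ)),
        LocallyOfFiniteType f ∧ QuasiCompact f ∧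
        Infinite (Spec (CommRingCat.of ℤ) ⟶ X) ∧
        Function.Bijective (fun g : Spec (CommRingCat.of ℤ) ⟶ X =>
          Spec.map (CommRingCat.ofHom (algebraMap ℤ (𝓞 K))) ≫ g) := by
  have hinj : Function.Injective (algebraMap ℤ (𝓞 K)) :=
    FaithfulSMul.algebraMap_injective ℤ (𝓞 K)
  refine ⟨Spec (CommRingCat.of (CR f)),
    Spec.map (CommRingCat.ofHom (algebraMap ℤ (CR f))), ?_, inferInstance, ?_, ?_, ?_⟩
  · rw [HasRingHomProperty.Spec_iff (P := @LocallyOfFiniteType)]
    have : Algebra.FiniteType ℤ (CR f) :=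
      Algebra.FiniteType.of_surjective (Ideal.Quotient.mkₐ ℤ (Ideal.span {f}))
        (Ideal.Quotient.mkₐ_surjective _ _)
    exact (RingHom.finiteType_algebraMap).2 this
  · have : Infinite {v : Fin 2 → ℤ | aeval v f = 0} := Set.infinite_coe_iff.mpr h1
    refine Infinite.of_injective (fun v : {v : Fin 2 → ℤ | aeval v f = 0} =>
      (Spec.map (CommRingCat.ofHom (hm f v.1 v.2)) :
        Spec (CommRingCat.of ℤ) ⟶ Spec (CommRingCat.of (CR f)))) ?_
    intro v w hvw
    have h3 := Spec.map_injective hvw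
    have h4 : hm f v.1 v.2 = hm f w.1 w.2 := by
      have := congrArg CommRingCat.Hom.hom h3
      simpa using this
    apply Subtype.ext
    funext i
    rw [← hm_mk f v.1 v.2, ← hm_mk f w.1 w.2, h4]
  · intro g g' hg
    obtain ⟨φ, rfl⟩ := Spec.map_surjective g
    obtain ⟨φ', rfl⟩ := Spec.map_surjective g'
    simp only [← Spec.map_comp] at hg
    have h3 := Spec.map_injective hg
    have h4 := congrArg CommRingCat.Hom.hom h3
    congr 1
    apply CommRingCat.hom_ext
    refine RingHom.ext fun a => ?_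
    apply hinj
    have := RingHom.congr_fun h4 a
    simpa using this
  · intro g
    obtain ⟨ψ, rfl⟩ := Spec.map_surjective g
    have h3 := aeval_hom f ψ.hom
    obtain ⟨a, ha⟩ := Classical.skolem.1 (h2 _ h3)
    have h5 : aeval a f = 0 := by
      apply hinj
      rw [map_zero]
      have h6 : algebraMap ℤ (𝓞 K) (aeval a f) = aeval (fun i => algebraMap ℤ (𝓞 K) (a i)) f := by
        rw [MvPolynomial.aeval_def, MvPolynomial.aeval_def, MvPolynomial.hom_eval₂]
        congr 1
      rw [h6, ← h3]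
      congr 2
      funext i
      exact (ha i).symm
    refine ⟨Spec.map (CommRingCat.ofHom (hm f a h5)), ?_⟩
    simp only [← Spec.map_comp]
    congr 1
    apply CommRingCat.hom_ext
    apply hom_ext
    intro i
    have := ha i
    simp only [CommRingCat.hom_comp, RingHom.comp_apply, CommRingCat.hom_ofHom]
    rw [hm_mk, this]

end Run7.h805.IP
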